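import Mathlib

set_option autoImplicit false

/-!
# A lemma of Jack type

If `g` is analytic and without zeros in the unit disc, `g 0 = 1`, `g' 0 = 0` and
`Re (1 - z g' / g) > 0`, then `|g - 1| ≤ |z|²`.
-/

namespace Pool.Agent.Work.MP_8daf13_an.HD

open Metric Set Filter Topology

/-- The Schwarz lemma of order two. -/
theorem schwarz2 {f : ℂ → ℂ} {R M : ℝ} (hd : DifferentiableOn ℂ f (ball 0 R)) (h0 : f 0 = 0)
    (h1 : deriv f 0 = 0) (hb : ∀ z ∈ ball (0 : ℂ) R, ‖f z‖ ≤ M) {z : ℂ}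
    (hz : z ∈ ball (0 : ℂ) R) : ‖f z‖ ≤ M * (‖z‖ / R) ^ 2 := by
  have hR : 0 < R := Metric.nonempty_ball.1 ⟨z, hz⟩
  have hda : DifferentiableAt ℂ f 0 := hd.differentiableAt (ball_mem_nhds _ hR)
  have hlo : (fun w => f w - f 0) =o[𝓝 0] (fun w : ℂ => ‖w - 0‖ ^ 1) := by
    have h2 := hda.hasDerivAt
    rw [h1, hasDerivAt_iff_isLittleO] at h2
    simp only [smul_zero, sub_zero] at h2
    simp only [pow_one, sub_zero]
    exact h2.norm_right
  have h3 := Complex.dist_le_mul_div_pow_of_mapsTo_ball_of_isLittleO (R₂ := M) (n := 1) hd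
    (fun w hw => by
      rw [h0, mem_closedBall_zero_iff]
      exact hb w hw) hlo hz
  rw [h0, dist_zero_right, dist_zero_right] at h3
  exact h3

/-- The logarithmic derivative at a point of the level curve `|ω| = 1`. -/
theorem level {ω : ℂ → ℂ} {z₀ d : ℂ} (hr : z₀ ≠ 0)
    (hd : HasDerivAt ω d z₀) (h1 : ‖ω z₀‖ = 1)
    (hin : ∀ z, ‖z‖ ≤ ‖z₀‖ → ‖ω z‖ ≤ (‖z‖ / ‖z₀‖) ^ 2) :
    ∃ k : ℝ, 2 ≤ k ∧ z₀ * d = k * ω z₀ := by
  set N : ℂ → ℝ := fun z => Complex.normSq (ω z) with hN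
  have hn0 : 0 < ‖z₀‖ := norm_pos_iff.2 hr
  have hsq : ∀ z, N z = ‖ω z‖ ^ 2 := fun z => Complex.normSq_eq_norm_sq _
  -- the derivative of `N` along a curve
  have hcurve : ∀ (c : ℝ → ℂ) (c' : ℂ) (t : ℝ), c t = z₀ → HasDerivAt c c' t →
      HasDerivAt (fun s => N (c s)) (2 * ((starRingEnd ℂ) (ω z₀) * (d * c')).re) t := by
    intro c c' t hct hc
    have hd' : HasDerivAt ω d (c t) := by rw [hct]; exact hd
    have h2 : HasDerivAt (fun s => ω (c s)) (d * c') t := by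
      have := hd'.comp_of_eq t hc rfl
      exact this
    have hre : HasDerivAt (fun s => (ω (c s)).re) ((d * c').re) t := by
      exact (Complex.reCLM.hasFDerivAt.comp_hasDerivAt t h2)
    have him : HasDerivAt (fun s => (ω (c s)).im) ((d * c').im) t := by
      exact (Complex.imCLM.hasFDerivAt.comp_hasDerivAt t h2)
    have h3 := (hre.mul hre).add (him.mul him)
    have h4 : (fun s => N (c s)) =
        (fun s => (ω (c s)).re * (ω (c s)).re + (ω (c s)).im * (ω (c s)).im) := by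
      funext s
      simp [hN, Complex.normSq_apply]
    rw [h4]
    refine h3.congr_deriv ?_
    rw [hct]
    simp only [Complex.mul_re, Complex.mul_im, Complex.conj_re, Complex.conj_im]
    ring
  have hNz : N z₀ = 1 := by rw [hsq, h1]; norm_num
  have hNle : ∀ z, ‖z‖ ≤ ‖z₀‖ → N z ≤ (‖z‖ / ‖z₀‖) ^ 4 := by
    intro z hz
    rw [hsq]
    have := hin z hz
    calc ‖ω z‖ ^ 2 ≤ ((‖z‖ / ‖z₀‖) ^ 2) ^ 2 := by gcongr
      _ = (‖z‖ / ‖z₀‖) ^ 4 := by ring
  -- angular derivative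
  have hang : (((starRingEnd ℂ) (ω z₀)) * (d * (Complex.I * z₀))).re = 0 := by
    have hc : HasDerivAt (fun s : ℝ => Complex.exp (s * Complex.I) * z₀) (Complex.I * z₀) 0 := by
      have h5 : HasDerivAt (fun s : ℝ => Complex.exp ((s : ℂ) * Complex.I)) (Complex.I) 0 := by
        have h6 : HasDerivAt (fun s : ℝ => (s : ℂ) * Complex.I) Complex.I 0 := by
          simpa using (Complex.ofRealCLM.hasDerivAt (x := (0 : ℝ))).mul_const Complex.I
        have h7 := h6.cexp
        simpa using h7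
      exact h5.mul_const z₀
    have h6 := hcurve _ _ 0 (by simp) hc
    have hmax : IsLocalMax (fun s : ℝ => N (Complex.exp (s * Complex.I) * z₀)) 0 := by
      refine Eventually.of_forall fun s => ?_
      have hns : ‖Complex.exp (s * Complex.I) * z₀‖ = ‖z₀‖ := by
        rw [norm_mul, Complex.norm_exp_ofReal_mul_I, one_mul]
      have h7 := hNle (Complex.exp (s * Complex.I) * z₀) hns.le
      rw [hns, div_self hn0.ne', one_pow] at h7
      simpa [hNz] using h7
    have h8 := hmax.hasDerivAt_eq_zero h6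
    linarith
  -- radial derivative
  have hrad : 2 ≤ (((starRingEnd ℂ) (ω z₀)) * (d * z₀)).re := by
    have hc : HasDerivAt (fun s : ℝ => (s : ℂ) * z₀) (z₀) 1 := by
      simpa using (Complex.ofRealCLM.hasDerivAt (x := (1 : ℝ))).mul_const z₀
    have h6 := hcurve _ _ 1 (by simp) hc
    have h7 : HasDerivAt (fun s : ℝ => N ((s : ℂ) * z₀) - s ^ 4)
        (2 * (((starRingEnd ℂ) (ω z₀)) * (d * z₀)).re - 4) 1 := by
      refine (h6.sub (hasDerivAt_pow 4 (1 : ℝ))).congr_deriv ?_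
      norm_num
    have h8 : ∀ᶠ s : ℝ in 𝓝[<] (1 : ℝ),
        N ((s : ℂ) * z₀) - s ^ 4 ≤ N (((1 : ℝ) : ℂ) * z₀) - 1 ^ 4 := by
      filter_upwards [Ioo_mem_nhdsLT (show (0 : ℝ) < 1 by norm_num)] with s hs
      have hns : ‖(s : ℂ) * z₀‖ = s * ‖z₀‖ := by
        rw [norm_mul, Complex.norm_real, Real.norm_of_nonneg hs.1.le]
      have h9 := hNle ((s : ℂ) * z₀) (by
        rw [hns]
        have := hs.2
        nlinarith)
      rw [hns, mul_div_assoc, div_self hn0.ne', mul_one] at h9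
      have h10 : N (((1 : ℝ) : ℂ) * z₀) = 1 := by simpa using hNz
      rw [h10]
      linarith
    -- the slope from the left is nonnegative
    have h9 := h7.hasDerivWithinAt (s := Iio 1)
    rw [hasDerivWithinAt_iff_tendsto_slope' (by simp)] at h9
    have h10 : 0 ≤ 2 * (((starRingEnd ℂ) (ω z₀)) * (d * z₀)).re - 4 := by
      refine ge_of_tendsto h9 ?_
      filter_upwards [h8, self_mem_nhdsWithin] with s hs hs1
      rw [slope_def_field]
      have hlt : s < 1 := hs1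
      exact div_nonneg_of_nonpos (by linarith) (by linarith)
    linarith
  -- conclusion
  have hk : (starRingEnd ℂ) (ω z₀) * (d * z₀) =
      (((starRingEnd ℂ) (ω z₀) * (d * z₀)).re : ℂ) := by
    apply Complex.ext
    · simp
    · have h5 : ((starRingEnd ℂ) (ω z₀) * (d * (Complex.I * z₀))) =
          Complex.I * ((starRingEnd ℂ) (ω z₀) * (d * z₀)) := by ring
      rw [h5, Complex.I_mul_re] at hang
      rw [Complex.ofReal_im]
      linarith
  refine ⟨(((starRingEnd ℂ) (ω z₀)) * (d * z₀)).re, hrad, ?_⟩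
  have hm : ω z₀ * (starRingEnd ℂ) (ω z₀) = 1 := by
    rw [Complex.mul_conj, Complex.normSq_eq_norm_sq, h1]
    norm_num
  calc z₀ * d = (ω z₀ * (starRingEnd ℂ) (ω z₀)) * (d * z₀) := by rw [hm]; ring
    _ = ω z₀ * ((starRingEnd ℂ) (ω z₀) * (d * z₀)) := by ring
    _ = ω z₀ * (((starRingEnd ℂ) (ω z₀) * (d * z₀)).re : ℂ) := by rw [← hk]
    _ = _ := by ring

theorem re_aux {w : ℂ} (h1 : ‖w‖ = 1) (hne : 1 - w ≠ 0) : (w / (1 - w)).re = -(1 / 2) := by
  have h2 : w.re * w.re + w.im * w.im = 1 := by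
    have := Complex.normSq_eq_norm_sq w
    rw [h1, Complex.normSq_apply] at this
    linarith
  have h3 : Complex.normSq (1 - w) = 2 - 2 * w.re := by
    rw [Complex.normSq_apply]
    simp only [Complex.sub_re, Complex.one_re, Complex.sub_im, Complex.one_im]
    nlinarith
  have h4 : 0 < Complex.normSq (1 - w) := Complex.normSq_pos.2 hne
  rw [Complex.div_re, h3]
  rw [h3] at h4
  rw [← add_div, div_eq_iff h4.ne']
  simp only [Complex.sub_re, Complex.one_re, Complex.sub_im, Complex.one_im]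
  linear_combination (-1) * h2

/-- The lemma of Jack type. -/
theorem jack {g : ℂ → ℂ} (hg : DifferentiableOn ℂ g (ball 0 1)) (h0 : g 0 = 1)
    (h1 : deriv g 0 = 0) (hne : ∀ z ∈ ball (0 : ℂ) 1, g z ≠ 0)
    (hre : ∀ z ∈ ball (0 : ℂ) 1, 0 < (1 - z * deriv g z / g z).re) :
    ∀ z ∈ ball (0 : ℂ) 1, ‖1 - g z‖ < 1 := by
  intro z₁ hz₁
  by_contra hcon
  push Not at hcon
  set ω : ℂ → ℂ := fun z => 1 - g z with hω
  have hωd : DifferentiableOn ℂ ω (ball 0 1) := (differentiableOn_const _).sub hg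
  have hcont : ContinuousOn ω (ball 0 1) := hωd.continuousOn
  have hz1 : ‖z₁‖ < 1 := mem_ball_zero_iff.1 hz₁
  -- a point of smallest modulus with `|ω| ≥ 1`
  set S : Set ℂ := closedBall 0 ‖z₁‖ ∩ {z | 1 ≤ ‖ω z‖} with hS
  have hsub : closedBall (0 : ℂ) ‖z₁‖ ⊆ ball 0 1 := closedBall_subset_ball hz1
  have hSc : IsCompact S := by
    have hcl : IsClosed S := by
      have := (hcont.mono hsub).norm.preimage_isClosed_of_isClosed isClosed_closedBall
        (isClosed_Ici (a := (1 : ℝ)))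
      exact this
    exact (isCompact_closedBall (0 : ℂ) ‖z₁‖).of_isClosed_subset hcl inter_subset_left
  have hSn : S.Nonempty := ⟨z₁, by simp, hcon⟩
  obtain ⟨z₀, hz₀S, hmin⟩ := hSc.exists_isMinOn hSn continuous_norm.continuousOn
  have hz₀1 : ‖z₀‖ ≤ ‖z₁‖ := mem_closedBall_zero_iff.1 hz₀S.1
  have hz₀lt : ‖z₀‖ < 1 := hz₀1.trans_lt hz1
  have hz₀b : z₀ ∈ ball (0 : ℂ) 1 := mem_ball_zero_iff.2 hz₀lt
  have hlt : ∀ z, ‖z‖ < ‖z₀‖ → ‖ω z‖ < 1 := by
    intro z hz
    by_contra h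
    push Not at h
    have hzS : z ∈ S := ⟨mem_closedBall_zero_iff.2 (hz.le.trans hz₀1), h⟩
    have := hmin hzS
    simp only [mem_ofPred_eq] at this
    linarith
  have hz₀ne : z₀ ≠ 0 := by
    intro h
    have := hz₀S.2
    rw [mem_ofPred_eq, h, hω] at this
    simp only [h0, sub_self, norm_zero] at this
    linarith
  have hn0 : 0 < ‖z₀‖ := norm_pos_iff.2 hz₀ne
  have hω0 : ω 0 = 0 := by simp [hω, h0]
  have hω1 : deriv ω 0 = 0 := by
    have : deriv ω 0 = - deriv g 0 := by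
      rw [hω]
      simp
    rw [this, h1, neg_zero]
  -- the Schwarz lemma inside
  have hsch : ∀ z, ‖z‖ < ‖z₀‖ → ‖ω z‖ ≤ (‖z‖ / ‖z₀‖) ^ 2 := by
    intro z hz
    have := schwarz2 (R := ‖z₀‖) (M := 1) (hωd.mono (ball_subset_ball hz₀lt.le)) hω0 hω1
      (fun w hw => (hlt w (mem_ball_zero_iff.1 hw)).le) (mem_ball_zero_iff.2 hz)
    linarith
  -- up to the boundary
  have hin : ∀ z, ‖z‖ ≤ ‖z₀‖ → ‖ω z‖ ≤ (‖z‖ / ‖z₀‖) ^ 2 := by
    intro z hz
    have hzb : z ∈ ball (0 : ℂ) 1 := mem_ball_zero_iff.2 (hz.trans_lt hz₀lt)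
    have hc1 : Tendsto (fun t : ℝ => ‖ω ((t : ℂ) * z)‖) (𝓝[<] 1) (𝓝 ‖ω z‖) := by
      have hca : ContinuousAt ω z := hcont.continuousAt (isOpen_ball.mem_nhds hzb)
      have h2 : Tendsto (fun t : ℝ => (t : ℂ) * z) (𝓝[<] 1) (𝓝 z) := by
        have : Continuous (fun t : ℝ => (t : ℂ) * z) := by fun_prop
        have h3 := this.tendsto (1 : ℝ)
        simp only [Complex.ofReal_one, one_mul] at h3
        exact h3.mono_left nhdsWithin_le_nhds
      exact (hca.tendsto.comp h2).norm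
    have hc2 : Tendsto (fun t : ℝ => (‖(t : ℂ) * z‖ / ‖z₀‖) ^ 2) (𝓝[<] 1)
        (𝓝 ((‖z‖ / ‖z₀‖) ^ 2)) := by
      have : Continuous (fun t : ℝ => (‖(t : ℂ) * z‖ / ‖z₀‖) ^ 2) := by fun_prop
      have h3 := this.tendsto (1 : ℝ)
      simp only [Complex.ofReal_one, one_mul] at h3
      exact h3.mono_left nhdsWithin_le_nhds
    refine le_of_tendsto_of_tendsto hc1 hc2 ?_
    filter_upwards [Ioo_mem_nhdsLT (show (0 : ℝ) < 1 by norm_num)] with t ht
    rcases eq_or_ne z 0 with rfl | hzne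
    · simp [hω0]
    · apply hsch
      rw [norm_mul, Complex.norm_real, Real.norm_of_nonneg ht.1.le]
      have h4 : 0 < ‖z‖ := norm_pos_iff.2 hzne
      have := ht.2
      nlinarith
  have hone : ‖ω z₀‖ = 1 := by
    apply le_antisymm
    · have := hin z₀ le_rfl
      rwa [div_self hn0.ne', one_pow] at this
    · exact hz₀S.2
  have hda : HasDerivAt ω (-deriv g z₀) z₀ := by
    have h2 : HasDerivAt g (deriv g z₀) z₀ :=
      (hg.differentiableAt (isOpen_ball.mem_nhds hz₀b)).hasDerivAt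
    have := h2.const_sub (1 : ℂ)
    exact this
  obtain ⟨k, hk2, hk⟩ := level hz₀ne hda hone hin
  have hgz : g z₀ = 1 - ω z₀ := by simp [hω]
  have hgne := hne z₀ hz₀b
  have h3 := hre z₀ hz₀b
  have h4 : z₀ * deriv g z₀ / g z₀ = -(k * (ω z₀ / (1 - ω z₀))) := by
    have h5 : z₀ * deriv g z₀ = -(k * ω z₀) := by
      rw [← hk]
      ring
    rw [h5, hgz]
    ring
  rw [h4, sub_neg_eq_add, Complex.add_re, Complex.one_re, Complex.re_ofReal_mul,
    re_aux hone (by rw [← hgz]; exact hgne)] at h3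
  linarith

end Pool.Agent.Work.MP_8daf13_an.HD
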