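import Pool.Agent.Work.MP_8daf13_an.HD.Coef
import Pool.Agent.Work.MP_8daf13_an.HD.Jack

set_option autoImplicit false

/-!
# The coefficients of `Q g`
-/

namespace Pool.Agent.Work.MP_8daf13_an.HD

open Metric Set Filter Topology

/-- The Taylor coefficients of `1 / ((1 - z/p) (1 - p z))`. -/
noncomputable def PP (p : ℝ) (k : ℕ) : ℝ := (∑ i ∈ Finset.range (k + 1), p ^ (2 * i)) / p ^ k

theorem PP_pos {p : ℝ} (hp : 0 < p) (k : ℕ) : 0 < PP p k := by
  unfold PP
  have : 0 < ∑ i ∈ Finset.range (k + 1), p ^ (2 * i) :=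
    Finset.sum_pos (fun i _ => by positivity) ⟨0, by simp⟩
  positivity

theorem reindex {p : ℝ} (hp : 0 < p) (b : ℕ → ℂ) (N : ℕ) :
    ∑ k ∈ Finset.range (N + 1), (PP p (N - k) : ℂ) * b k =
      (∑ j ∈ Finset.range (N + 1), ∑ i ∈ Finset.range (j + 1), (p : ℂ) ^ (i + j) * b (j - i)) /
        (p : ℂ) ^ N := by
  have hp' : (p : ℂ) ≠ 0 := by exact_mod_cast hp.ne'
  rw [eq_div_iff (pow_ne_zero _ hp'), Finset.sum_mul]
  have h1 : ∀ k ∈ Finset.range (N + 1), (PP p (N - k) : ℂ) * b k * (p : ℂ) ^ N =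
      ∑ i ∈ Finset.range (N - k + 1), (p : ℂ) ^ (2 * i + k) * b k := by
    intro k hk
    rw [Finset.mem_range] at hk
    unfold PP
    push_cast
    have h2 : (p : ℂ) ^ N = (p : ℂ) ^ (N - k) * (p : ℂ) ^ k := by
      rw [← pow_add]
      congr 1
      omega
    rw [h2]
    have h3 : (∑ i ∈ Finset.range (N - k + 1), (p : ℂ) ^ (2 * i)) / (p : ℂ) ^ (N - k) * b k *
        ((p : ℂ) ^ (N - k) * (p : ℂ) ^ k) =
        (∑ i ∈ Finset.range (N - k + 1), (p : ℂ) ^ (2 * i)) * ((p : ℂ) ^ k * b k) := by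
      have := pow_ne_zero (N - k) hp'
      field_simp
    rw [h3, Finset.sum_mul]
    refine Finset.sum_congr rfl fun i _ => ?_
    rw [pow_add]
    ring
  rw [Finset.sum_congr rfl h1, Finset.sum_sigma', Finset.sum_sigma']
  refine Finset.sum_nbij' (fun x => ⟨x.2 + x.1, x.2⟩) (fun x => ⟨x.1 - x.2, x.2⟩) ?_ ?_ ?_ ?_ ?_
  · rintro ⟨k, i⟩ h
    simp only [Finset.mem_sigma, Finset.mem_range] at h ⊢
    omega
  · rintro ⟨j, i⟩ h
    simp only [Finset.mem_sigma, Finset.mem_range] at h ⊢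
    omega
  · rintro ⟨k, i⟩ h
    simp
  · rintro ⟨j, i⟩ h
    simp only [Finset.mem_sigma, Finset.mem_range] at h ⊢
    congr 1
    omega
  · rintro ⟨k, i⟩ h
    simp only [Finset.mem_sigma, Finset.mem_range] at h ⊢
    have e1 : i + k - i = k := by omega
    rw [e1]
    congr 2
    omega

/-- The bound for the weighted sums, with the weights `PP`. -/
theorem weighted_PP {p : ℝ} (hp : 0 < p) {b : ℕ → ℂ} {B : ℂ → ℂ}
    (hB : ∀ z : ℂ, ‖z‖ < 1 → HasSum (fun k => b k * z ^ k) (B z))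
    (hb : ∀ z : ℂ, ‖z‖ < 1 → ‖B z‖ ≤ 1) (N : ℕ) :
    ‖∑ k ∈ Finset.range (N + 1), (PP p (N - k) : ℂ) * b k‖ ≤ PP p N := by
  rw [reindex hp, norm_div, norm_pow, Complex.norm_real, Real.norm_of_nonneg hp.le]
  unfold PP
  exact div_le_div_of_nonneg_right (weighted hB hb p N) (by positivity)

/-- The bound for the coefficients of `g`. -/
theorem bound_g {p : ℝ} (hp : 0 < p) {g : ℂ → ℂ} {c : ℕ → ℂ}
    (hgs : ∀ z : ℂ, ‖z‖ < 1 → HasSum (fun k => c k * z ^ k) (g z)) (c0 : c 0 = 1) (c1 : c 1 = 0)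
    (hg : DifferentiableOn ℂ g (ball 0 1)) (hd : deriv g 0 = 0)
    (hne : ∀ z ∈ ball (0 : ℂ) 1, g z ≠ 0)
    (hre : ∀ z ∈ ball (0 : ℂ) 1, 0 < (1 - z * deriv g z / g z).re) (N : ℕ) :
    ‖∑ k ∈ Finset.range (N + 1), (PP p (N - k) : ℂ) * c (k + 2)‖ ≤ PP p N := by
  have hg0 : g 0 = 1 := by
    have h1 := (hgs 0 (by simp)).unique (hasSum_single 0 (fun k hk => by simp [hk]))
    rw [h1, c0]
    simp
  -- the quotient
  have hs : ∀ z : ℂ, ‖z‖ < 1 → Summable (fun k => -c (k + 2) * z ^ k) := by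
    intro z hz
    rcases eq_or_ne z 0 with rfl | hz0
    · exact summable_of_ne_finset_zero (s := {0}) (fun k hk => by
        simp only [Finset.mem_singleton] at hk
        simp [hk])
    · have h1 := ((summable_nat_add_iff 2).2 (hgs z hz).summable).mul_left (-(z ^ 2)⁻¹)
      refine h1.congr fun k => ?_
      field_simp
      ring
  have hval : ∀ z : ℂ, ‖z‖ < 1 → z ^ 2 * ∑' k, -c (k + 2) * z ^ k = 1 - g z := by
    intro z hz
    have h1 := (hgs z hz).summable.sum_add_tsum_nat_add 2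
    rw [(hgs z hz).tsum_eq, Finset.sum_range_succ, Finset.sum_range_one, c0, c1] at h1
    rw [← tsum_mul_left, ← h1]
    have h2 : (fun k => z ^ 2 * (-c (k + 2) * z ^ k)) = fun k => -(c (k + 2) * z ^ (k + 2)) := by
      funext k
      ring
    rw [h2, tsum_neg]
    ring
  have hbd : ∀ z : ℂ, ‖z‖ < 1 → z ≠ 0 → ‖∑' k, -c (k + 2) * z ^ k‖ ≤ 1 := by
    intro z hz hz0
    have h1 : ‖1 - g z‖ ≤ 1 * (‖z‖ / 1) ^ 2 := by
      refine schwarz2 (f := fun z => 1 - g z) ((differentiableOn_const _).sub hg)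
        (by simp [hg0]) (by simp [hd]) (fun w hw => ?_) (mem_ball_zero_iff.2 hz)
      exact (jack hg hg0 hd hne hre w hw).le
    rw [← hval z hz, norm_mul, norm_pow, one_mul, div_one] at h1
    have h2 : 0 < ‖z‖ ^ 2 := by
      have := norm_pos_iff.2 hz0
      positivity
    nlinarith
  have hbd' : ∀ z : ℂ, ‖z‖ < 1 → ‖∑' k, -c (k + 2) * z ^ k‖ ≤ 1 := by
    intro z hz
    rcases eq_or_ne z 0 with rfl | hz0
    · -- continuity at zero
      set r : ℝ := 1 / 2 with hr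
      have hsr : Summable (fun k => ‖-c (k + 2)‖ * r ^ k) := by
        have h1 := (hs (r : ℂ) (by rw [Complex.norm_real]; norm_num [hr])).norm
        refine h1.congr fun k => ?_
        rw [norm_mul, norm_pow, Complex.norm_real, Real.norm_of_nonneg (by norm_num [hr])]
      have hc : ContinuousOn (fun z : ℂ => ∑' k, -c (k + 2) * z ^ k) (ball 0 r) := by
        refine continuousOn_tsum (fun k => by fun_prop) hsr fun k z hz => ?_
        rw [norm_mul, norm_pow]
        have := (mem_ball_zero_iff.1 hz).le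
        gcongr
      have hca := (hc.continuousAt (ball_mem_nhds _ (by norm_num [hr]))).norm
      have h2 : Tendsto (fun z : ℂ => ‖∑' k, -c (k + 2) * z ^ k‖) (𝓝[≠] 0)
          (𝓝 ‖∑' k, -c (k + 2) * (0 : ℂ) ^ k‖) := hca.tendsto.mono_left nhdsWithin_le_nhds
      refine le_of_tendsto h2 ?_
      have h3 : ball (0 : ℂ) 1 ∈ 𝓝[≠] (0 : ℂ) :=
        nhdsWithin_le_nhds (ball_mem_nhds _ one_pos)
      filter_upwards [h3, self_mem_nhdsWithin] with w hw hw0
      exact hbd w (mem_ball_zero_iff.1 hw) hw0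
    · exact hbd z hz hz0
  have h1 := weighted_PP hp (b := fun k => -c (k + 2)) (B := fun z => ∑' k, -c (k + 2) * z ^ k)
    (fun z hz => (hs z hz).hasSum) hbd' N
  have h2 : ∑ k ∈ Finset.range (N + 1), (PP p (N - k) : ℂ) * -c (k + 2) =
      -∑ k ∈ Finset.range (N + 1), (PP p (N - k) : ℂ) * c (k + 2) := by
    rw [← Finset.sum_neg_distrib]
    refine Finset.sum_congr rfl fun k _ => by ring
  rw [h2, norm_neg] at h1
  exact h1

end Pool.Agent.Work.MP_8daf13_an.HD
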