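import Mathlib

set_option autoImplicit false

/-!
# Weighted sums of the Taylor coefficients of a function bounded by one
-/

namespace Pool.Agent.Work.MP_8daf13_an.HD

open MeasureTheory Set Filter Topology

theorem int_exp (n : ℤ) :
    ∫ θ in (0 : ℝ)..(2 * Real.pi), Complex.exp (((n : ℂ) * Complex.I) * θ) =
      if n = 0 then (2 * Real.pi : ℂ) else 0 := by
  split_ifs with h
  · subst h
    simp
  · have hc : ((n : ℂ) * Complex.I) ≠ 0 :=
      mul_ne_zero (by exact_mod_cast h) Complex.I_ne_zero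
    rw [integral_exp_mul_complex hc]
    have h1 : Complex.exp ((n : ℂ) * Complex.I * ((2 * Real.pi : ℝ) : ℂ)) = 1 := by
      rw [Complex.exp_eq_one_iff]
      exact ⟨n, by push_cast; ring⟩
    rw [h1]
    simp

/-- The integral of `B (r e^(iθ)) e^((i-j)iθ)`. -/
theorem int_B {b : ℕ → ℂ} {B : ℂ → ℂ}
    (hB : ∀ z : ℂ, ‖z‖ < 1 → HasSum (fun k => b k * z ^ k) (B z)) {r : ℝ} (hr0 : 0 ≤ r)
    (hr : r < 1) (n : ℤ) :
    ∫ θ in (0 : ℝ)..(2 * Real.pi), B (r * Complex.exp (Complex.I * θ)) *
        Complex.exp (((n : ℂ) * Complex.I) * θ) =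
      if n ≤ 0 then 2 * Real.pi * (b (-n).toNat * (r : ℂ) ^ (-n).toNat) else 0 := by
  have hsum : Summable (fun k => ‖b k‖ * r ^ k) := by
    have h1 := (hB (r : ℂ) (by simpa [abs_of_nonneg hr0] using hr)).summable.norm
    refine h1.congr fun k => ?_
    rw [norm_mul, norm_pow, Complex.norm_real, Real.norm_of_nonneg hr0]
  have key : HasSum (fun k : ℕ => ∫ θ in (0 : ℝ)..(2 * Real.pi),
      (b k * (r : ℂ) ^ k) * Complex.exp ((((k : ℤ) + n : ℤ) : ℂ) * Complex.I * θ))
      (∫ θ in (0 : ℝ)..(2 * Real.pi), B (r * Complex.exp (Complex.I * θ)) *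
        Complex.exp (((n : ℂ) * Complex.I) * θ)) := by
    refine intervalIntegral.hasSum_integral_of_dominated_convergence
      (fun k _ => ‖b k‖ * r ^ k) ?_ ?_ ?_ ?_ ?_
    · intro k
      exact (Continuous.aestronglyMeasurable (by fun_prop))
    · intro k
      refine Eventually.of_forall fun θ _ => ?_
      rw [norm_mul, norm_mul, norm_pow, Complex.norm_real, Real.norm_of_nonneg hr0]
      have h2 : ‖Complex.exp ((((k : ℤ) + n : ℤ) : ℂ) * Complex.I * θ)‖ = 1 := by
        have : (((k : ℤ) + n : ℤ) : ℂ) * Complex.I * θ =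
            (((((k : ℤ) + n : ℤ) : ℝ) * θ : ℝ) : ℂ) * Complex.I := by
          push_cast
          ring
        rw [this, Complex.norm_exp_ofReal_mul_I]
      rw [h2, mul_one]
    · exact Eventually.of_forall fun θ _ => hsum
    · simp
    · refine Eventually.of_forall fun θ _ => ?_
      have hz : ‖(r : ℂ) * Complex.exp (Complex.I * θ)‖ < 1 := by
        rw [norm_mul, Complex.norm_real, Real.norm_of_nonneg hr0, mul_comm Complex.I,
          Complex.norm_exp_ofReal_mul_I, mul_one]
        exact hr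
      have h3 := (hB _ hz).mul_right (Complex.exp (((n : ℂ) * Complex.I) * θ))
      refine h3.congr_fun ?_ |> fun h => h
      intro k
      have h5 : Complex.exp ((((k : ℤ) + n : ℤ) : ℂ) * Complex.I * θ) =
          Complex.exp ((k : ℂ) * (Complex.I * θ)) * Complex.exp ((n : ℂ) * Complex.I * θ) := by
        rw [← Complex.exp_add]
        congr 1
        push_cast
        ring
      rw [h5, mul_pow, ← Complex.exp_nat_mul]
      ring
  have hval : ∀ k : ℕ, ∫ θ in (0 : ℝ)..(2 * Real.pi),
      (b k * (r : ℂ) ^ k) * Complex.exp ((((k : ℤ) + n : ℤ) : ℂ) * Complex.I * θ) =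
      if (k : ℤ) = -n then 2 * Real.pi * (b k * (r : ℂ) ^ k) else 0 := by
    intro k
    rw [intervalIntegral.integral_const_mul, int_exp]
    by_cases h : (k : ℤ) = -n
    · rw [if_pos h, if_pos (by omega)]
      ring
    · rw [if_neg h, if_neg (by omega), mul_zero]
  simp only [hval] at key
  by_cases hn : n ≤ 0
  · rw [if_pos hn]
    have h4 := hasSum_ite_eq (-n).toNat (2 * Real.pi * (b (-n).toNat * (r : ℂ) ^ (-n).toNat))
    refine key.unique ?_
    refine h4.congr_fun ?_ |> fun h => h
    intro k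
    by_cases hk : (k : ℤ) = -n
    · have hk' : k = (-n).toNat := by omega
      rw [if_pos hk, if_pos hk', ← hk']
    · rw [if_neg hk, if_neg (by omega)]
  · rw [if_neg hn]
    refine key.unique ?_
    have : (fun k : ℕ => if (k : ℤ) = -n then 2 * Real.pi * (b k * (r : ℂ) ^ k) else 0) =
        fun _ => (0 : ℂ) := by
      funext k
      rw [if_neg (by omega)]
    rw [this]
    exact hasSum_zero

/-- The trigonometric polynomial `∑ p^j e^(ijθ)`. -/
noncomputable def uu (p : ℝ) (N : ℕ) (θ : ℝ) : ℂ :=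
  ∑ j ∈ Finset.range (N + 1), (p : ℂ) ^ j * Complex.exp (((j : ℤ) : ℂ) * Complex.I * θ)

theorem uu_cont (p : ℝ) (N : ℕ) : Continuous (uu p N) := by
  unfold uu
  fun_prop

theorem conj_exp (j : ℤ) (θ : ℝ) : (starRingEnd ℂ) (Complex.exp ((j : ℂ) * Complex.I * θ)) =
    Complex.exp (((-j : ℤ) : ℂ) * Complex.I * θ) := by
  rw [← Complex.exp_conj]
  congr 1
  simp

theorem uu_sq (p : ℝ) (N : ℕ) (θ : ℝ) : ((Complex.normSq (uu p N θ) : ℝ) : ℂ) =
    ∑ i ∈ Finset.range (N + 1), ∑ j ∈ Finset.range (N + 1), (p : ℂ) ^ (i + j) *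
      Complex.exp ((((i : ℤ) - j : ℤ) : ℂ) * Complex.I * θ) := by
  rw [← Complex.mul_conj]
  unfold uu
  rw [map_sum, Finset.sum_mul_sum]
  refine Finset.sum_congr rfl fun i _ => Finset.sum_congr rfl fun j _ => ?_
  rw [map_mul, map_pow, Complex.conj_ofReal, conj_exp]
  have : Complex.exp ((((i : ℤ) - j : ℤ) : ℂ) * Complex.I * θ) =
      Complex.exp (((i : ℤ) : ℂ) * Complex.I * θ) *
        Complex.exp (((-(j : ℤ) : ℤ) : ℂ) * Complex.I * θ) := by
    rw [← Complex.exp_add]
    congr 1
    push_cast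
    ring
  rw [this, pow_add]
  ring

theorem int_uu (p : ℝ) (N : ℕ) : ∫ θ in (0 : ℝ)..(2 * Real.pi), Complex.normSq (uu p N θ) =
    2 * Real.pi * ∑ j ∈ Finset.range (N + 1), p ^ (2 * j) := by
  have h1 : ((∫ θ in (0 : ℝ)..(2 * Real.pi), Complex.normSq (uu p N θ) : ℝ) : ℂ) =
      2 * Real.pi * ∑ j ∈ Finset.range (N + 1), (p : ℂ) ^ (2 * j) := by
    rw [← intervalIntegral.integral_ofReal]
    simp only [uu_sq]
    rw [intervalIntegral.integral_finsetSum]
    · rw [Finset.mul_sum]
      refine Finset.sum_congr rfl fun i hi => ?_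
      rw [intervalIntegral.integral_finsetSum]
      · rw [Finset.sum_eq_single i]
        · rw [intervalIntegral.integral_const_mul, int_exp]
          simp
          ring
        · intro j _ hj
          rw [intervalIntegral.integral_const_mul, int_exp, if_neg (by omega), mul_zero]
        · intro h
          exact absurd hi h
      · intro j _
        exact Continuous.intervalIntegrable (by fun_prop) _ _
    · intro i _
      exact Continuous.intervalIntegrable (by fun_prop) _ _
  have h2 : (2 * Real.pi * ∑ j ∈ Finset.range (N + 1), (p : ℂ) ^ (2 * j) : ℂ) =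
      ((2 * Real.pi * ∑ j ∈ Finset.range (N + 1), p ^ (2 * j) : ℝ) : ℂ) := by
    push_cast
    ring
  rw [h2] at h1
  exact_mod_cast h1

/-- The weighted inequality at a radius less than one. -/
theorem weighted_r {b : ℕ → ℂ} {B : ℂ → ℂ}
    (hB : ∀ z : ℂ, ‖z‖ < 1 → HasSum (fun k => b k * z ^ k) (B z))
    (hb : ∀ z : ℂ, ‖z‖ < 1 → ‖B z‖ ≤ 1) (p : ℝ) (N : ℕ) {r : ℝ} (hr0 : 0 ≤ r) (hr : r < 1) :
    ‖∑ j ∈ Finset.range (N + 1), ∑ i ∈ Finset.range (j + 1),
      (p : ℂ) ^ (i + j) * (b (j - i) * (r : ℂ) ^ (j - i))‖ ≤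
      ∑ j ∈ Finset.range (N + 1), p ^ (2 * j) := by
  have hcont : Continuous (fun θ : ℝ => B (r * Complex.exp (Complex.I * θ))) := by
    have hsum : Summable (fun k => ‖b k‖ * r ^ k) := by
      have h1 := (hB (r : ℂ) (by simpa [abs_of_nonneg hr0] using hr)).summable.norm
      refine h1.congr fun k => ?_
      rw [norm_mul, norm_pow, Complex.norm_real, Real.norm_of_nonneg hr0]
    have h2 : (fun θ : ℝ => B (r * Complex.exp (Complex.I * θ))) =
        fun θ : ℝ => ∑' k, b k * ((r : ℂ) * Complex.exp (Complex.I * θ)) ^ k := by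
      funext θ
      refine (HasSum.tsum_eq (hB _ ?_)).symm
      rw [norm_mul, Complex.norm_real, Real.norm_of_nonneg hr0, mul_comm Complex.I,
        Complex.norm_exp_ofReal_mul_I, mul_one]
      exact hr
    rw [h2]
    refine continuous_tsum (fun k => by fun_prop) hsum fun k θ => ?_
    rw [norm_mul, norm_pow, norm_mul, Complex.norm_real, Real.norm_of_nonneg hr0,
      mul_comm Complex.I, Complex.norm_exp_ofReal_mul_I, mul_one]
  have hbd : ∀ θ : ℝ, ‖B (r * Complex.exp (Complex.I * θ))‖ ≤ 1 := by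
    intro θ
    apply hb
    rw [norm_mul, Complex.norm_real, Real.norm_of_nonneg hr0, mul_comm Complex.I,
      Complex.norm_exp_ofReal_mul_I, mul_one]
    exact hr
  have hI : ∫ θ in (0 : ℝ)..(2 * Real.pi), B (r * Complex.exp (Complex.I * θ)) *
      ((Complex.normSq (uu p N θ) : ℝ) : ℂ) =
      2 * Real.pi * ∑ j ∈ Finset.range (N + 1), ∑ i ∈ Finset.range (j + 1),
        (p : ℂ) ^ (i + j) * (b (j - i) * (r : ℂ) ^ (j - i)) := by
    have h1 : ∀ θ : ℝ, B (r * Complex.exp (Complex.I * θ)) *
        ((Complex.normSq (uu p N θ) : ℝ) : ℂ) =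
        ∑ j ∈ Finset.range (N + 1), ∑ i ∈ Finset.range (N + 1), (p : ℂ) ^ (i + j) *
          (B (r * Complex.exp (Complex.I * θ)) *
            Complex.exp ((((i : ℤ) - j : ℤ) : ℂ) * Complex.I * θ)) := by
      intro θ
      rw [uu_sq, Finset.sum_comm, Finset.mul_sum]
      refine Finset.sum_congr rfl fun j _ => ?_
      rw [Finset.mul_sum]
      refine Finset.sum_congr rfl fun i _ => ?_
      ring
    simp only [h1]
    rw [intervalIntegral.integral_finsetSum, Finset.mul_sum]
    · refine Finset.sum_congr rfl fun j hj => ?_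
      rw [intervalIntegral.integral_finsetSum]
      · have h2 : ∀ i ∈ Finset.range (N + 1), ∫ θ in (0 : ℝ)..(2 * Real.pi), (p : ℂ) ^ (i + j) *
            (B (r * Complex.exp (Complex.I * θ)) *
              Complex.exp ((((i : ℤ) - j : ℤ) : ℂ) * Complex.I * θ)) =
            if i ∈ Finset.range (j + 1) then
              2 * Real.pi * ((p : ℂ) ^ (i + j) * (b (j - i) * (r : ℂ) ^ (j - i))) else 0 := by
          intro i _
          rw [intervalIntegral.integral_const_mul, int_B hB hr0 hr]
          by_cases h : i ∈ Finset.range (j + 1)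
          · rw [if_pos h]
            rw [Finset.mem_range] at h
            rw [if_pos (by omega)]
            have h3 : (-((i : ℤ) - j)).toNat = j - i := by omega
            rw [h3]
            ring
          · rw [if_neg h]
            rw [Finset.mem_range] at h
            rw [if_neg (by omega), mul_zero]
        rw [Finset.sum_congr rfl h2, ← Finset.sum_filter, Finset.mul_sum]
        refine Finset.sum_congr ?_ fun _ _ => rfl
        ext i
        rw [Finset.mem_range] at hj
        simp only [Finset.mem_filter, Finset.mem_range]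
        omega
      · intro i _
        exact Continuous.intervalIntegrable (continuous_const.mul (hcont.mul (by fun_prop))) _ _
    · intro j _
      exact Continuous.intervalIntegrable (continuous_finsetSum _ fun i _ =>
        continuous_const.mul (hcont.mul (by fun_prop))) _ _
  have hpi : (0 : ℝ) < 2 * Real.pi := by positivity
  have hnorm : ‖∫ θ in (0 : ℝ)..(2 * Real.pi), B (r * Complex.exp (Complex.I * θ)) *
      ((Complex.normSq (uu p N θ) : ℝ) : ℂ)‖ ≤
      ∫ θ in (0 : ℝ)..(2 * Real.pi), Complex.normSq (uu p N θ) := by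
    refine intervalIntegral.norm_integral_le_of_norm_le hpi.le ?_ ?_
    · refine Eventually.of_forall fun θ _ => ?_
      rw [norm_mul, Complex.norm_real, Real.norm_of_nonneg (Complex.normSq_nonneg _)]
      calc ‖B (r * Complex.exp (Complex.I * θ))‖ * Complex.normSq (uu p N θ)
          ≤ 1 * Complex.normSq (uu p N θ) :=
            mul_le_mul_of_nonneg_right (hbd θ) (Complex.normSq_nonneg _)
        _ = Complex.normSq (uu p N θ) := one_mul _
    · exact (Complex.continuous_normSq.comp (uu_cont p N)).intervalIntegrable _ _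
  rw [hI, int_uu, norm_mul] at hnorm
  have h3 : ‖(2 * Real.pi : ℂ)‖ = 2 * Real.pi := by
    rw [show (2 * Real.pi : ℂ) = ((2 * Real.pi : ℝ) : ℂ) by push_cast; ring, Complex.norm_real,
      Real.norm_of_nonneg hpi.le]
  rw [h3] at hnorm
  exact le_of_mul_le_mul_left hnorm hpi

/-- The weighted inequality. -/
theorem weighted {b : ℕ → ℂ} {B : ℂ → ℂ}
    (hB : ∀ z : ℂ, ‖z‖ < 1 → HasSum (fun k => b k * z ^ k) (B z))
    (hb : ∀ z : ℂ, ‖z‖ < 1 → ‖B z‖ ≤ 1) (p : ℝ) (N : ℕ) :
    ‖∑ j ∈ Finset.range (N + 1), ∑ i ∈ Finset.range (j + 1), (p : ℂ) ^ (i + j) * b (j - i)‖ ≤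
      ∑ j ∈ Finset.range (N + 1), p ^ (2 * j) := by
  have hc : Continuous (fun r : ℝ => ‖∑ j ∈ Finset.range (N + 1), ∑ i ∈ Finset.range (j + 1),
      (p : ℂ) ^ (i + j) * (b (j - i) * (r : ℂ) ^ (j - i))‖) := by fun_prop
  have h1 := (hc.tendsto 1).mono_left (nhdsWithin_le_nhds (s := Iio 1))
  simp only [Complex.ofReal_one, one_pow, mul_one] at h1
  refine le_of_tendsto h1 ?_
  filter_upwards [Ioo_mem_nhdsLT (show (0 : ℝ) < 1 by norm_num)] with r hr
  exact weighted_r hB hb p N hr.1.le hr.2

end Pool.Agent.Work.MP_8daf13_an.HD
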