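import Pool.Agent.Work.MP_8daf13_an.LFinal
import Pool.Agent.Work.MP_8daf13_an.HD.Alg

set_option autoImplicit false

/-!
# The central disc: all coefficients, all poles, for `w₀ = -p/(1+p²)`
-/

namespace Pool.Agent.Work.MP_8daf13_an.HD

open Metric Set Filter Topology
open Pool.Agent.MP_8daf13

theorem PP_eq {p : ℝ} (hp : 0 < p) (j : ℕ) : PP p j = sC p j := by
  unfold PP sC
  rw [Finset.sum_div]
  refine Finset.sum_congr rfl fun i hi => ?_
  rw [Finset.mem_range] at hi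
  have h : p ^ j = p ^ (j - i) * p ^ i := by
    rw [← pow_add]
    congr 1
    omega
  rw [h, two_mul, pow_add]
  have h1 := (pow_pos hp i).ne'
  have h2 := (pow_pos hp (j - i)).ne'
  field_simp

theorem re_pos {u : ℂ} (hu : ‖u‖ < 1) : 0 < ((1 + u) / (1 - u)).re := by
  have hne : 1 - u ≠ 0 := by
    intro h
    have : u = 1 := by linear_combination -h
    rw [this] at hu
    simp at hu
  have h1 : 0 < Complex.normSq (1 - u) := Complex.normSq_pos.2 hne
  have h2 : u.re * u.re + u.im * u.im < 1 := by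
    have h3 : Complex.normSq u < 1 := by
      rw [Complex.normSq_eq_norm_sq]
      nlinarith [norm_nonneg u]
    rwa [Complex.normSq_apply] at h3
  rw [Complex.div_re, ← add_div]
  apply div_pos _ h1
  simp only [Complex.add_re, Complex.one_re, Complex.sub_re, Complex.add_im, Complex.one_im,
    Complex.sub_im]
  nlinarith

/-- The bound for the coefficients of the functions with `m = 0`. -/
theorem bound_rec {p : ℝ} (hp : 0 < p) {v : ℂ → ℂ} (hv : Pool.Agent.MP_8daf13.Schur v)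
    {h : ℕ → ℂ} (H : Rec 0 (tc v) h) (N : ℕ) :
    ‖∑ k ∈ Finset.range (N + 1), (sC p (N - k) : ℂ) * h (k + 2)‖ ≤ sC p N := by
  have hm : ‖(0 : ℂ)‖ ≤ 1 := by simp
  obtain ⟨F, hF⟩ := L1.exists_log hm hv
  have hrec := rec_exp hm hv hF
  set g : ℂ → ℂ := fun z => Complex.exp (F z) with hg
  have hh : ∀ k, h k = tc g k := fun k => H.unique hrec k
  have hder : ∀ z ∈ ball (0 : ℂ) 1,
      HasDerivAt g (Complex.exp (F z) * (-2 * (0 + z * v z) / Dn 0 v z)) z :=
    fun z hz => (hF.2 z hz).cexp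
  have hgd : DifferentiableOn ℂ g (ball 0 1) := fun z hz =>
    (hder z hz).differentiableAt.differentiableWithinAt
  have hgs : ∀ z : ℂ, ‖z‖ < 1 → HasSum (fun k => tc g k * z ^ k) (g z) := by
    intro z hz
    have h1 := Complex.hasSum_taylorSeries_on_ball (r := 1) (c := (0 : ℂ)) (f := g)
      (by simpa using hgd) (z := z) (by simpa using hz)
    refine h1.congr_fun ?_ |> fun h => h
    intro k
    unfold tc
    simp only [sub_zero, smul_eq_mul]
    field_simp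
  have c0 : tc g 0 = 1 := by rw [tc_zero, hg]; simp [hF.1]
  have hd0 : deriv g 0 = 0 := by
    rw [(hder 0 (mem_ball_self one_pos)).deriv]
    simp
  have c1 : tc g 1 = 0 := by rw [tc_one, hd0]
  have hb := bound_g hp hgs c0 c1 hgd hd0 (fun z _ => Complex.exp_ne_zero _) (fun z hz => ?_) N
  · rw [PP_eq hp] at hb
    have e : ∑ k ∈ Finset.range (N + 1), (sC p (N - k) : ℂ) * h (k + 2) =
        ∑ k ∈ Finset.range (N + 1), (PP p (N - k) : ℂ) * tc g (k + 2) := by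
      refine Finset.sum_congr rfl fun k _ => ?_
      rw [PP_eq hp, hh]
    rw [e]
    exact hb
  · rw [(hder z hz).deriv]
    have hD := L1.Dn_ne hm hv hz
    have hz1 : ‖z‖ < 1 := mem_ball_zero_iff.1 hz
    have hu : ‖z ^ 2 * v z‖ < 1 := by
      rw [norm_mul, norm_pow]
      have h1 := hv.2 z hz
      have h2 : ‖z‖ ^ 2 < 1 := by nlinarith [norm_nonneg z]
      nlinarith [norm_nonneg (v z), sq_nonneg ‖z‖]
    have hD' : Dn 0 v z = 1 - z ^ 2 * v z := by
      unfold Dn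
      simp
      ring
    rw [hD'] at hD
    have h3 : 1 - z * (Complex.exp (F z) * (-2 * (0 + z * v z) / Dn 0 v z)) / g z =
        (1 + z ^ 2 * v z) / (1 - z ^ 2 * v z) := by
      rw [hD', hg]
      have := Complex.exp_ne_zero (F z)
      field_simp
      ring
    rw [h3]
    exact re_pos hu

theorem sum_split {p : ℝ} {h : ℕ → ℂ} (h0 : h 0 = 1) (h1 : h 1 = 0) (N : ℕ) :
    ∑ k ∈ Finset.range (N + 2 + 1), (sC p (N + 2 - k) : ℂ) * h k =
      sC p (N + 2) + ∑ k ∈ Finset.range (N + 1), (sC p (N - k) : ℂ) * h (k + 2) := by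
  rw [show N + 2 + 1 = (N + 1) + 1 + 1 by ring, Finset.sum_range_succ', Finset.sum_range_succ',
    h0]
  have e : h (0 + 1) = 0 := h1
  rw [e]
  have : ∀ k ∈ Finset.range (N + 1), (sC p (N + 2 - (k + 1 + 1)) : ℂ) * h (k + 1 + 1) =
      (sC p (N - k) : ℂ) * h (k + 2) := by
    intro k _
    congr 3
    omega
  rw [Finset.sum_congr rfl this]
  simp
  ring

theorem hcoef_zero (ζ : ℂ) : hcoef 0 ζ 0 = 1 ∧ hcoef 0 ζ 1 = 0 ∧ hcoef 0 ζ 2 = -ζ ∧
    ∀ k, hcoef 0 ζ (k + 3) = 0 := by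
  have h1 : hcoef 0 ζ 1 = 0 := by simp [hcoef]
  have h2 : hcoef 0 ζ 2 = -ζ := by
    simp [hcoef]
    ring
  have h3 : hcoef 0 ζ 3 = 0 := by
    have e : hcoef 0 ζ 3 = ((((1 : ℕ) : ℂ) - 1) * 0 - (((1 : ℕ) : ℂ) + 1) *
      (starRingEnd ℂ) 0 * ζ) * hcoef 0 ζ 2 / (((1 : ℕ) : ℂ) + 2) +
      (((1 : ℕ) : ℂ) - 2) * ζ * hcoef 0 ζ 1 / (((1 : ℕ) : ℂ) + 2) := by
      rw [← add_div]
      rfl
    rw [e, h1]
    simp
  have h4 : hcoef 0 ζ 4 = 0 := by
    have e : hcoef 0 ζ 4 = ((((2 : ℕ) : ℂ) - 1) * 0 - (((2 : ℕ) : ℂ) + 1) *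
      (starRingEnd ℂ) 0 * ζ) * hcoef 0 ζ 3 / (((2 : ℕ) : ℂ) + 2) +
      (((2 : ℕ) : ℂ) - 2) * ζ * hcoef 0 ζ 2 / (((2 : ℕ) : ℂ) + 2) := by
      rw [← add_div]
      rfl
    rw [e, h3]
    simp
  have h5 : ∀ k, hcoef 0 ζ (k + 3) = 0 ∧ hcoef 0 ζ (k + 4) = 0 := by
    intro k
    induction k with
    | zero => exact ⟨h3, h4⟩
    | succ k ih =>
      refine ⟨ih.2, ?_⟩
      have e : hcoef 0 ζ (k + 1 + 4) = ((((k + 3 : ℕ) : ℂ) - 1) * 0 - (((k + 3 : ℕ) : ℂ) + 1) *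
        (starRingEnd ℂ) 0 * ζ) * hcoef 0 ζ (k + 4) / (((k + 3 : ℕ) : ℂ) + 2) +
        (((k + 3 : ℕ) : ℂ) - 2) * ζ * hcoef 0 ζ (k + 3) / (((k + 3 : ℕ) : ℂ) + 2) := by
        rw [← add_div]
        rfl
      rw [e, ih.1, ih.2]
      simp
  exact ⟨rfl, h1, h2, fun k => (h5 k).1⟩

theorem sC_one {p : ℝ} : sC p 1 = 1 / p + p := by
  unfold sC
  simp [Finset.sum_range_succ]

/-- The central disc. -/
theorem central {p : ℝ} (hp : 0 < p) (hp1 : p < 1) (N : ℕ) :
    V (N + 2) p (-(p / (1 + p ^ 2) : ℝ) : ℂ) =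
      closedBall ((sC p (N + 2) / sC p 1 : ℝ) : ℂ) (sC p N / sC p 1) := by
  set w₀ : ℂ := (-(p / (1 + p ^ 2) : ℝ) : ℂ) with hw₀
  have hp2 : (0 : ℝ) < 1 + p ^ 2 := by positivity
  have hs1 : 0 < sC p 1 := by rw [sC_one]; positivity
  have hs1c : (sC p 1 : ℂ) ≠ 0 := by exact_mod_cast hs1.ne'
  have hpc : (p : ℂ) ≠ 0 := by exact_mod_cast hp.ne'
  have hp2c : (1 + (p : ℂ) ^ 2) ≠ 0 := by exact_mod_cast hp2.ne'
  have hw : w₀ ≠ 0 := by
    rw [hw₀]
    push_cast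
    exact neg_ne_zero.2 (div_ne_zero hpc hp2c)
  have hnw : -w₀ = 1 / (sC p 1 : ℂ) := by
    rw [sC_one, hw₀]
    push_cast
    field_simp
  have hm : ((p : ℂ) + 1 / p + 1 / w₀) / 2 = 0 := by
    rw [hw₀]
    push_cast
    field_simp
    ring
  ext a
  rw [mem_closedBall, dist_eq_norm]
  constructor
  · rintro ⟨f, hf, rfl⟩
    obtain ⟨-, v, hvd, hvb, h, H, hco⟩ := forward hp hp1 hw hf
    rw [hm] at H
    have hb := bound_rec hp ⟨hvd, hvb⟩ H N
    have h0 : h 0 = 1 := H.1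
    have h1 : h 1 = 0 := by
      have := H.2 0
      simpa using this
    rw [hco (N + 2) (by omega), sum_split h0 h1, hnw]
    have e : 1 / (sC p 1 : ℂ) * ((sC p (N + 2) : ℂ) +
        ∑ k ∈ Finset.range (N + 1), (sC p (N - k) : ℂ) * h (k + 2)) -
        ((sC p (N + 2) / sC p 1 : ℝ) : ℂ) =
        (∑ k ∈ Finset.range (N + 1), (sC p (N - k) : ℂ) * h (k + 2)) / (sC p 1 : ℂ) := by
      push_cast
      field_simp
      ring
    rw [e, norm_div, Complex.norm_real, Real.norm_of_nonneg hs1.le]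
    exact div_le_div_of_nonneg_right hb hs1.le
  · intro ha
    have hsN : 0 < sC p N := sC_pos hp N
    have hsNc : (sC p N : ℂ) ≠ 0 := by exact_mod_cast hsN.ne'
    set ζ : ℂ := (sC p (N + 2) - a * sC p 1) / sC p N with hζ
    have hζ1 : ‖ζ‖ ≤ 1 := by
      have e : ζ = -((a - ((sC p (N + 2) / sC p 1 : ℝ) : ℂ)) * sC p 1 / sC p N) := by
        rw [hζ]
        push_cast
        field_simp
        ring
      rw [e, norm_neg, norm_div, norm_mul, Complex.norm_real, Complex.norm_real,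
        Real.norm_of_nonneg hs1.le, Real.norm_of_nonneg hsN.le, div_le_one hsN]
      calc ‖a - ((sC p (N + 2) / sC p 1 : ℝ) : ℂ)‖ * sC p 1 ≤ sC p N / sC p 1 * sC p 1 :=
            mul_le_mul_of_nonneg_right ha hs1.le
        _ = sC p N := by field_simp
    have H : Rec (((p : ℂ) + 1 / p + 1 / w₀) / 2) (tc (fun _ => ζ)) (hcoef 0 ζ) := by
      rw [hm, tc_const_eq]
      exact rec_hcoef _ _
    obtain ⟨f, hf, hco⟩ := backward hp hp1 hw (by rw [hm]; simp) (v := fun _ => ζ)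
      (differentiableOn_const _) (fun _ _ => hζ1) H
    refine ⟨f, hf, ?_⟩
    obtain ⟨h0, h1, h2, h3⟩ := hcoef_zero ζ
    rw [hco (N + 2) (by omega), sum_split h0 h1, hnw, Finset.sum_eq_single 0]
    · rw [h2, hζ]
      simp only [Nat.sub_zero]
      field_simp
      ring
    · intro k _ hk
      obtain ⟨j, rfl⟩ := Nat.exists_eq_succ_of_ne_zero hk
      rw [show j.succ + 2 = j + 3 by omega, h3, mul_zero]
    · intro h
      exact absurd (Finset.mem_range.2 (by omega)) h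

end Pool.Agent.Work.MP_8daf13_an.HD
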